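import Pool.Agent.Helper10.CR.Goals2

universe u

namespace Pool.Agent.Helper42.CR

open Pool.Agent.Helper10.CR Pool.Agent.Helper10.Width Pool.Agent.Helper72.Width
  Pool.Agent.Helper78.SD
open IsLocalRing

/-- the condition for the relation -/
def h42_kappa {R : Type u} [CommRing R] (r x b : R) : NPP R 4 where
  m := 3
  k := 1
  a := ![![r * x, -b, 0, 0], ![0, 0, -b, 0], ![0, 0, 0, -b]]
  b := ![![0], ![b], ![x]]

theorem h42_kappa_sol {R : Type u} [CommRing R] (r x b : R) (M : Type u) [AddCommGroup M]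
    [Module R M] (t : Fin 4 → M) : t ∈ (h42_kappa r x b).sol M ↔
      (r * x) • t 0 = b • t 1 ∧ ∃ t', b • (t' - t 2) = 0 ∧ x • t' = b • t 3 := by
  rw [NPP.mem_sol]
  constructor
  · rintro ⟨y, hy⟩
    have h0 : ∑ i : Fin 4, (![r * x, -b, 0, 0] : Fin 4 → R) i • t i +
        ∑ l : Fin 1, (![0] : Fin 1 → R) l • y l = 0 := hy (0 : Fin 3)
    have h1 : ∑ i : Fin 4, (![0, 0, -b, 0] : Fin 4 → R) i • t i +
        ∑ l : Fin 1, (![b] : Fin 1 → R) l • y l = 0 := hy (1 : Fin 3)
    have h2 : ∑ i : Fin 4, (![0, 0, 0, -b] : Fin 4 → R) i • t i +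
        ∑ l : Fin 1, (![x] : Fin 1 → R) l • y l = 0 := hy (2 : Fin 3)
    simp [Fin.sum_univ_four] at h0 h1 h2
    refine ⟨?_, y (0 : Fin 1), ?_, ?_⟩
    · rwa [← sub_eq_add_neg, sub_eq_zero] at h0
    · rw [smul_sub, sub_eq_neg_add]
      exact h1
    · rwa [neg_add_eq_zero, eq_comm] at h2
  · rintro ⟨h0, t', h1, h2⟩
    refine ⟨fun _ => t', ?_⟩
    intro i
    have key : ∀ i : Fin 3, ∑ j : Fin 4, (h42_kappa r x b).a i j • t j +
        ∑ l : Fin 1, (h42_kappa r x b).b i l • t' = 0 := by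
      intro i
      fin_cases i
      · simp [h42_kappa, Fin.sum_univ_four, h0]
      · rw [smul_sub, sub_eq_neg_add] at h1
        simpa [h42_kappa, Fin.sum_univ_four] using h1
      · simp [h42_kappa, Fin.sum_univ_four, h2]
    exact key i

theorem goalTI : GoalTI.{u} := by
  intro hLift hLAI hExI hAtI hEsp R _ _ r x b h
  choose S hS using fun X : Models (PI (k := ResidueField R)) => hExI (ResidueField R) X.1 X.2
  refine ⟨fun X => (ctxI h).tr X.1 (S X), ⟨1, 0, fun _ => b, fun _ => Fin.elim0⟩,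
    h42_kappa r x b, ?_, ?_, ?_⟩
  · intro X t
    rw [← (hAtI R r x b h X.1 X.2 (S X) (hS X)).1 t, PP.mem_sol]
    constructor
    · rintro ⟨y, hy⟩
      have := hy (0 : Fin 1)
      simpa using this
    · intro ht
      refine ⟨Fin.elim0, fun i => ?_⟩
      simpa using ht
  · intro X t
    obtain ⟨-, a1, a2⟩ := hAtI R r x b h X.1 X.2 (S X) (hS X)
    rw [h42_kappa_sol, a1, a2]
    set π := ((ctxI h).tr X.1 (S X)).π
    constructor
    · rintro ⟨h1, h2⟩
      have := add_mem h1 h2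
      convert this using 1
      ext i
      fin_cases i <;> simp
    · intro hw
      have h1 := X.2.prod _ hw
      refine ⟨h1, ?_⟩
      have := sub_mem hw h1
      convert this using 1
      ext i
      fin_cases i <;> simp
  · intro θ
    obtain ⟨φ, hφ⟩ := hLAI (ResidueField R) θ.n ((ctxI h).EA θ) ((ctxI h).ED θ)
      (hEsp.1 R r x b h θ).1 (hEsp.1 R r x b h θ).2
    refine ⟨φ, fun X v => ?_⟩
    have hL := hLift R (ResidueField R) R (ResidueField R) (ctxI h) 4 X.1 (S X) θ v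
    rw [hL]
    have hF := hφ X.1 X.2 ((S X).ιD →₀ ResidueField R)
      ((S X).e.toLinearMap ∘ₗ LinearMap.inr (ResidueField R) _ _)
      (-(LinearMap.proj 1 ∘ₗ (S X).γ)) ?_ ?_ v
    · have key : ∀ (f : Fin 2 → X.1.V) (z : (S X).ιD →₀ ResidueField R),
          f - (S X).γ z ∈ (S X).Wr ↔
            ![f 0, -(f 1) - (-((S X).γ z 1)), 0, 0] ∈ X.1.Rel := by
        intro f z
        rw [(hS X).wr]
        have e0 : (f - (S X).γ z) 0 = f 0 := by
          rw [Pi.sub_apply, (hS X).g0 z, sub_zero]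
        have e1 : -(f - (S X).γ z) 1 = -(f 1) - (-((S X).γ z 1)) := by
          rw [Pi.sub_apply]; abel
        rw [e0, e1]
      rw [hF]
      constructor
      · rintro ⟨P, hP, Q, hQ, hv, hc⟩
        exact ⟨P, hP, Q, hQ, hv, fun c => (key _ _).2 (hc c)⟩
      · rintro ⟨P, hP, Q, hQ, hv, hc⟩
        exact ⟨P, hP, Q, hQ, hv, fun c => (key _ _).1 (hc c)⟩
    · intro m
      exact (hS X).g1 m
    · intro y s hys
      obtain ⟨z, hz⟩ := (hS X).hD y s hys
      exact ⟨z, hz⟩

end Pool.Agent.Helper42.CR
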