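import Pool.Agent.Helper88.CR.GoalsA

/-!
# PACKET CR-PS
-/

set_option autoImplicit false

open Finset Filter Topology

open scoped Classical ArithmeticFunction

namespace Pool.Agent.Helper42.CR

open Pool.Agent.Helper88.CR

/-- iterated `logMul` -/
lemma logMul_iter (f : ℕ → ℂ) (m n : ℕ) :
    (LSeries.logMul^[m] f) n = (Complex.log n) ^ m * f n := by
  induction m with
  | zero => simp
  | succ m ih =>
    rw [Function.iterate_succ', Function.comp_apply]
    show Complex.log n * (LSeries.logMul^[m] f) n = _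
    rw [ih, pow_succ]; ring

/-- summability with the factor `(log n)^j/j!` -/
lemma summ_gj (f : ℕ → ℂ) (h : LSeries.abscissaOfAbsConv f ≤ 1) (j : ℕ) (s : ℂ)
    (hs : 1 < s.re) : LSeriesSummable (gj f j) s := by
  have h1 : LSeriesSummable (LSeries.logMul^[j] f) s := by
    apply LSeriesSummable_of_abscissaOfAbsConv_lt_re
    rw [LSeries.absicssaOfAbsConv_logPowMul]
    exact lt_of_le_of_lt h (by exact_mod_cast hs)
  have h2 := h1.smul (1 / (j.factorial : ℂ))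
  convert h2 using 1
  funext n
  simp only [Pi.smul_apply, smul_eq_mul, logMul_iter, gj]
  push_cast
  rw [← Complex.natCast_log]
  ring

lemma summ_gj_of_bdd (f : ℕ → ℂ) (h : ∀ n, ‖f n‖ ≤ 1) (j : ℕ) (s : ℂ)
    (hs : 1 < s.re) : LSeriesSummable (gj f j) s :=
  summ_gj f (LSeries.abscissaOfAbsConv_le_of_le_const ⟨1, fun n _ => h n⟩) j s hs

lemma summ_PL (f : ℕ → ℂ) (h : ∀ n, ‖f n‖ ≤ 1) (j : ℕ) (s : ℂ)
    (hs : 1 < s.re) : LSeriesSummable
      (fun n => ((ArithmeticFunction.vonMangoldt n : ℝ) : ℂ) * gj f j n) s := by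
  have h1 : LSeries.abscissaOfAbsConv
      (fun n => ((ArithmeticFunction.vonMangoldt n : ℝ) : ℂ) * f n) ≤ 1 := by
    apply LSeries.abscissaOfAbsConv_le_of_forall_lt_LSeriesSummable'
    intro y hy
    have hy' : 1 < ((y : ℝ) : ℂ).re := by
      simp only [Complex.ofReal_re]; exact_mod_cast hy
    have h3 := ArithmeticFunction.LSeriesSummable_vonMangoldt hy'
    refine h3.norm.of_norm_bounded (fun n => ?_)
    rcases eq_or_ne n 0 with rfl | hn
    · simp
    · rw [LSeries.term_of_ne_zero hn, LSeries.term_of_ne_zero hn, norm_div, norm_div, norm_mul]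
      apply div_le_div_of_nonneg_right _ (norm_nonneg _)
      exact mul_le_of_le_one_right (norm_nonneg _) (h n)
  have h2 := summ_gj _ h1 j s hs
  convert h2 using 1
  funext n
  simp only [gj]; ring

lemma norm_ch_le (z : ℕ) {q : ℕ} (χ : DirichletCharacter ℂ q) (n : ℕ) : ‖ch z χ n‖ ≤ 1 := by
  unfold ch
  split_ifs
  · exact χ.norm_le_one _
  · simp

lemma norm_ci_le (z q a n : ℕ) : ‖ci z q a n‖ ≤ 1 := by
  unfold ci
  split_ifs <;> simp

/-- rough integers are prime to a small modulus -/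
lemma rg_coprime {z q n : ℕ} (hq : 1 ≤ q) (hqz : q ≤ z) (h : rg z n) : Nat.Coprime n q := by
  apply Nat.coprime_of_dvd
  intro p hp h1 h2
  have h3 := h.2 p hp h1
  have h4 := Nat.le_of_dvd (by omega) h2
  omega

/-- orthogonality -/
lemma ci_eq (z q a : ℕ) [NeZero q] (ha : Nat.Coprime a q) (n : ℕ) :
    ((Nat.totient q : ℝ) : ℂ) * ci z q a n
      = ∑ χ : DirichletCharacter ℂ q, χ ((a : ZMod q)⁻¹) * ch z χ n := by
  have hu : IsUnit (a : ZMod q) := (ZMod.isUnit_iff_coprime a q).2 ha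
  by_cases hr : rg z n
  · have h1 : ∀ χ : DirichletCharacter ℂ q, ch z χ n = χ (n : ZMod q) := by
      intro χ; unfold ch; rw [if_pos hr]
    simp only [h1]
    rw [DirichletCharacter.sum_char_inv_mul_char_eq ℂ hu]
    unfold ci
    by_cases h2 : (a : ZMod q) = (n : ZMod q)
    · rw [if_pos h2, if_pos ⟨((ZMod.natCast_eq_natCast_iff a n q).1 h2).symm, hr⟩]
      push_cast; ring
    · rw [if_neg h2, if_neg]
      · simp
      · rintro ⟨h3, _⟩
        exact h2 ((ZMod.natCast_eq_natCast_iff a n q).2 h3.symm)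
  · have h1 : ∀ χ : DirichletCharacter ℂ q, ch z χ n = 0 := by
      intro χ; unfold ch; rw [if_neg hr]
    have h2 : ci z q a n = 0 := by
      unfold ci; rw [if_neg (fun h => hr h.2)]
    simp [h1, h2]

/-- trivial character -/
lemma ch_one (z q : ℕ) [NeZero q] (hqz : q ≤ z) (n : ℕ) :
    ch z (1 : DirichletCharacter ℂ q) n = ci z 1 0 n := by
  unfold ch ci
  by_cases hr : rg z n
  · rw [if_pos hr, if_pos ⟨Nat.modEq_one, hr⟩]
    have h1 := rg_coprime (NeZero.one_le) hqz hr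
    exact MulChar.one_apply ((ZMod.isUnit_iff_coprime n q).2 h1)
  · rw [if_neg hr, if_neg (fun h => hr h.2)]

/-- orthogonality for `LL` -/
lemma LL_orth (z q a : ℕ) [NeZero q] (ha : Nat.Coprime a q) (j : ℕ) (s : ℂ)
    (hs : 1 < s.re) : ((Nat.totient q : ℝ) : ℂ) * LL (ci z q a) j s
      = ∑ χ : DirichletCharacter ℂ q, χ ((a : ZMod q)⁻¹) * LL (ch z χ) j s := by
  have h1 : ∀ χ ∈ (univ : Finset (DirichletCharacter ℂ q)),
      LSeriesSummable (χ ((a : ZMod q)⁻¹) • gj (ch z χ) j) s := fun χ _ =>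
    (summ_gj_of_bdd _ (norm_ch_le z χ) j s hs).smul _
  unfold LL
  rw [← LSeries_smul]
  have h2 := LSeries_sum h1
  simp only [LSeries_smul] at h2
  rw [← h2]
  congr 1
  funext n
  simp only [Finset.sum_apply, Pi.smul_apply, smul_eq_mul, gj]
  rw [← mul_assoc, ci_eq z q a ha n, Finset.sum_mul]
  exact Finset.sum_congr rfl (fun χ _ => by ring)

/-- orthogonality for `PL` -/
lemma PL_orth (z q a : ℕ) [NeZero q] (ha : Nat.Coprime a q) (j : ℕ) (s : ℂ)
    (hs : 1 < s.re) : ((Nat.totient q : ℝ) : ℂ) * PL (ci z q a) j s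
      = ∑ χ : DirichletCharacter ℂ q, χ ((a : ZMod q)⁻¹) * PL (ch z χ) j s := by
  have h1 : ∀ χ ∈ (univ : Finset (DirichletCharacter ℂ q)),
      LSeriesSummable (χ ((a : ZMod q)⁻¹) •
        (fun n => ((ArithmeticFunction.vonMangoldt n : ℝ) : ℂ) * gj (ch z χ) j n)) s :=
    fun χ _ => (summ_PL _ (norm_ch_le z χ) j s hs).smul _
  unfold PL
  rw [← LSeries_smul]
  have h2 := LSeries_sum h1
  simp only [LSeries_smul] at h2
  rw [← h2]
  congr 1
  funext n
  simp only [Finset.sum_apply, Pi.smul_apply, smul_eq_mul, gj]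
  have h3 := ci_eq z q a ha n
  calc ((Nat.totient q : ℝ) : ℂ) * (((ArithmeticFunction.vonMangoldt n : ℝ) : ℂ) *
        (ci z q a n * ((Real.log n ^ j / (j.factorial : ℝ) : ℝ) : ℂ)))
      = (((Nat.totient q : ℝ) : ℂ) * ci z q a n) * (((ArithmeticFunction.vonMangoldt n : ℝ) : ℂ) *
        ((Real.log n ^ j / (j.factorial : ℝ) : ℝ) : ℂ)) := by ring
    _ = _ := by
      rw [h3, Finset.sum_mul]
      exact Finset.sum_congr rfl (fun χ _ => by ring)

/-- for `j ≥ 1` the term `n = 1` does not matter -/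
lemma LL_ci_cu (z q a j : ℕ) (hj : 1 ≤ j) (s : ℂ) :
    LL (ci z q a) j s = LL (cu z q a) j s := by
  unfold LL
  apply LSeries_congr
  intro n hn
  unfold gj
  by_cases h : n = 1
  · subst h
    simp [show j ≠ 0 by omega]
  · congr 1
    unfold ci cu
    by_cases h1 : n ≡ a [MOD q] ∧ rg z n
    · rw [if_pos h1, if_pos ⟨h1.1, h1.2, h⟩]
    · rw [if_neg h1, if_neg (fun h2 => h1 ⟨h2.1, h2.2.1⟩)]


/-- the numerical step -/
lemma num (K c KS l : ℝ) (k : ℕ) (hK : 1 ≤ K) (hc : 0 < c) (hc1 : c ≤ 1) (hKS : 1 ≤ KS)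
    (hl : 1 ≤ l) :
    ((k : ℝ) + 1) ^ 3 * (K ^ 2 / c) * ((1 + K / c) * (K * l)) ^ (k + 1)
      + ((k : ℝ) + 1) * (2 * KS * (KS * l) ^ (k + 1))
    ≤ ((8 * (K ^ 2 / c) * ((1 + K / c) * K) + 4 * KS ^ 2) * l) ^ (k + 1) := by
  have hA : 1 ≤ K ^ 2 / c := by
    rw [le_div_iff₀ hc]; nlinarith
  have hB : 0 ≤ (1 + K / c) * K := by positivity
  have hk2 : ((k : ℝ) + 1) ≤ 2 ^ (k + 1) := by
    have := Nat.lt_two_pow_self (n := k + 1)
    exact_mod_cast this.le
  have h0 : (0 : ℝ) ≤ (k : ℝ) + 1 := by positivity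
  have h1 : ((k : ℝ) + 1) ^ 3 * (K ^ 2 / c) * ((1 + K / c) * (K * l)) ^ (k + 1)
      ≤ (8 * (K ^ 2 / c) * ((1 + K / c) * K) * l) ^ (k + 1) := by
    have e1 : (8 * (K ^ 2 / c) * ((1 + K / c) * K) * l) ^ (k + 1)
        = (2 ^ (k + 1)) ^ 3 * (K ^ 2 / c) ^ (k + 1) * ((1 + K / c) * (K * l)) ^ (k + 1) := by
      rw [← pow_mul, mul_comm (k + 1) 3, pow_mul, ← mul_pow, ← mul_pow]
      congr 1; ring
    rw [e1]
    have h3 : ((k : ℝ) + 1) ^ 3 ≤ (2 ^ (k + 1)) ^ 3 := pow_le_pow_left₀ h0 hk2 3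
    have h4 : K ^ 2 / c ≤ (K ^ 2 / c) ^ (k + 1) := le_self_pow₀ hA (by omega)
    have h5 : (0 : ℝ) ≤ ((1 + K / c) * (K * l)) ^ (k + 1) := by positivity
    exact mul_le_mul_of_nonneg_right (mul_le_mul h3 h4 (by positivity) (by positivity)) h5
  have h2 : ((k : ℝ) + 1) * (2 * KS * (KS * l) ^ (k + 1)) ≤ (4 * KS ^ 2 * l) ^ (k + 1) := by
    have e1 : (4 * KS ^ 2 * l) ^ (k + 1) = 2 ^ (k + 1) * ((2 * KS) ^ (k + 1) * (KS * l) ^ (k + 1)) := by
      rw [← mul_pow, ← mul_pow]; congr 1; ring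
    rw [e1]
    have h4 : 2 * KS ≤ (2 * KS) ^ (k + 1) := le_self_pow₀ (by linarith) (by omega)
    exact mul_le_mul hk2 (mul_le_mul_of_nonneg_right h4 (by positivity)) (by positivity)
      (by positivity)
  have h6 : ∀ x y : ℝ, 0 ≤ x → 0 ≤ y → x ^ (k + 1) + y ^ (k + 1) ≤ (x + y) ^ (k + 1) := by
    intro x y hx hy
    have e1 : x ^ k ≤ (x + y) ^ k := pow_le_pow_left₀ hx (by linarith) k
    have e2 : y ^ k ≤ (x + y) ^ k := pow_le_pow_left₀ hy (by linarith) k
    calc x ^ (k + 1) + y ^ (k + 1) = x ^ k * x + y ^ k * y := by rw [pow_succ, pow_succ]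
      _ ≤ (x + y) ^ k * x + (x + y) ^ k * y :=
        add_le_add (mul_le_mul_of_nonneg_right e1 hx) (mul_le_mul_of_nonneg_right e2 hy)
      _ = (x + y) ^ (k + 1) := by rw [pow_succ]; ring
  have h7 := h6 (8 * (K ^ 2 / c) * ((1 + K / c) * K) * l) (4 * KS ^ 2 * l) (by positivity)
    (by positivity)
  rw [add_mul (8 * (K ^ 2 / c) * ((1 + K / c) * K)) (4 * KS ^ 2) l]
  linarith

theorem ps (h1 : StmtSC) (h2 : StmtCH) (h3 : StmtAL) (h4 : StmtPF) (h5 : StmtRM) : StmtPS := by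
  obtain ⟨KS, hKS, hSC⟩ := h1
  obtain ⟨K, hK, hCH⟩ := h2
  obtain ⟨c, hc, hc1, z0, hRM⟩ := h5
  have hA : 1 ≤ K ^ 2 / c := by
    rw [le_div_iff₀ hc]; nlinarith
  refine ⟨8 * (K ^ 2 / c) * ((1 + K / c) * K) + 4 * KS ^ 2, c, ?_, hc, hc1, max z0 16, ?_⟩
  · have : 0 ≤ 8 * (K ^ 2 / c) * ((1 + K / c) * K) := by positivity
    nlinarith
  intro z w hz hw hP
  have hz0 : z0 ≤ z := le_trans (le_max_left _ _) hz
  have hz16 : 16 ≤ z := le_trans (le_max_right _ _) hz
  obtain ⟨p, hp, hpw, hL⟩ := hRM z w hz0 hw hP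
  refine ⟨p, hp, hpw, ?_⟩
  have hpd : p ∣ primorial w := by
    unfold primorial
    exact Finset.dvd_prod_of_mem _ (by
      simp only [Finset.mem_filter, Finset.mem_range]; exact ⟨by omega, hp⟩)
  have hPpos : 0 < primorial w := primorial_pos w
  obtain ⟨q, hq⟩ := hpd
  have hqe : primorial w / p = q := by
    rw [hq]; exact Nat.mul_div_cancel_left q hp.pos
  rw [hqe] at hL ⊢
  have hq1 : 1 ≤ q := by
    rcases Nat.eq_zero_or_pos q with h | h
    · rw [h] at hq; simp at hq; omega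
    · exact h
  have hqP : q ≤ primorial w := by
    rw [hq]; exact Nat.le_mul_of_pos_left q hp.pos
  have hq8 : q ^ 8 ≤ z := le_trans (Nat.pow_le_pow_left hqP 8) hP
  have hqz : q ≤ z := le_trans (Nat.le_self_pow (by norm_num) q) hq8
  have : NeZero q := ⟨by omega⟩
  intro a ha s k hs1 hs2 hs3
  have hl : 1 ≤ Real.log z := by
    have : Real.exp 1 ≤ (z : ℝ) := by
      have h16 : (16 : ℝ) ≤ z := by exact_mod_cast hz16
      have := Real.exp_one_lt_d9
      linarith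
    have h6 := Real.log_le_log (Real.exp_pos 1) this
    simpa using h6
  have hs2' : s.re ≤ 2 := by
    have : c / Real.log z ≤ 1 := by
      rw [div_le_one (by linarith)]; linarith
    linarith
  have hz1 : (1 : ℝ) ≤ z := by exact_mod_cast (by omega : 1 ≤ z)
  have hs3' : |s.im| ≤ (z : ℝ) ^ (1 / 16 : ℝ) :=
    le_trans hs3 (Real.rpow_le_rpow_of_exponent_le hz1 (by norm_num))
  set S : Finset (DirichletCharacter ℂ q) :=
    (univ : Finset (DirichletCharacter ℂ q)).filter (fun χ => χ ≠ 1) with hS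
  set F : DirichletCharacter ℂ q → ℕ → ℂ :=
    fun χ j => LL (ch z χ) j s - (if j = 0 then 1 else 0) with hF
  set Pf : DirichletCharacter ℂ q → ℕ → ℂ := fun χ j => PL (ch z χ) j s with hPf
  have hmem : ∀ χ, χ ∈ S ↔ χ ≠ 1 := by intro χ; simp [hS]
  have hR : 1 ≤ K * Real.log z := by nlinarith
  have hAL := h3 (DirichletCharacter ℂ q) S F Pf K (K * Real.log z) c hK hR hc hc1
    (fun χ hχ j => (hCH z q hz16 hq8 s j hs1 hs2' hs3').1 χ ((hmem χ).1 hχ))
    (fun χ hχ => by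
      have := hL χ ((hmem χ).1 hχ) s hs1 hs2 hs3
      simpa [hF] using this)
    (fun j => (hCH z q hz16 hq8 s j hs1 hs2' hs3').2)
    (fun χ _ j => by
      have h6 := h4 z q χ s j hs1
      have e1 : F χ (j + 1) = LL (ch z χ) (j + 1) s := by simp [hF]
      rw [e1, h6]
      rw [Finset.sum_range_succ, Finset.sum_range_succ]
      have e2 : ∀ i ∈ range j, Pf χ i * F χ (j - i) = PL (ch z χ) i s * LL (ch z χ) (j - i) s := by
        intro i hi
        have : j - i ≠ 0 := by have := Finset.mem_range.1 hi; omega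
        simp [hF, hPf, this]
      rw [Finset.sum_congr rfl e2]
      simp only [hF, hPf, Nat.sub_self, if_true]
      ring)
    k
  have hφ : 0 < (Nat.totient q : ℝ) := by exact_mod_cast Nat.totient_pos.2 (by omega)
  have hφC : ((Nat.totient q : ℝ) : ℂ) ≠ 0 := by exact_mod_cast hφ.ne'
  have hφN : ((Nat.totient q : ℕ) : ℂ) ≠ 0 := by exact_mod_cast hφ.ne'
  -- sums over the nontrivial characters
  have hsplit : ∀ G : DirichletCharacter ℂ q → ℂ,
      ∑ χ, χ ((a : ZMod q)⁻¹) * G χ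
        = G 1 + ∑ χ ∈ S, χ ((a : ZMod q)⁻¹) * G χ := by
    intro G
    have e0 : (1 : DirichletCharacter ℂ q) ((a : ZMod q)⁻¹) = 1 := by
      apply MulChar.one_apply
      have hu : IsUnit (a : ZMod q) := (ZMod.isUnit_iff_coprime a q).2 ha
      obtain ⟨u, hu⟩ := hu
      rw [← hu, ZMod.inv_coe_unit]
      exact Units.isUnit _
    rw [← Finset.add_sum_erase univ _ (Finset.mem_univ (1 : DirichletCharacter ℂ q)), e0, one_mul]
    congr 1
    apply Finset.sum_congr _ (fun _ _ => rfl)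
    ext χ
    simp [hS]
  have hch1 : ch z (1 : DirichletCharacter ℂ q) = ci z 1 0 := funext (ch_one z q hqz)
  have hPLo := PL_orth z q a ha k s hs1
  rw [hsplit, hch1] at hPLo
  have hLLo := LL_orth z q a ha (k + 1) s hs1
  rw [hsplit, hch1, LL_ci_cu z q a (k + 1) (by omega) s,
    LL_ci_cu z 1 0 (k + 1) (by omega) s] at hLLo
  -- the part with F
  have hF1 : ∀ χ, F χ (k + 1) = LL (ch z χ) (k + 1) s := by intro χ; simp [hF]
  have hsc1 := hSC z q a hz16 hq1 hq8 ha s (k + 1) hs1 hs2' hs3'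
  have hsc2 := hSC z 1 0 hz16 le_rfl (by simpa using (by omega : 1 ≤ z)) (by simp) s (k + 1)
    hs1 hs2' hs3'
  simp only [Nat.totient_one, Nat.cast_one, div_one] at hsc2
  have hlin : ‖∑ χ ∈ S, χ ((a : ZMod q)⁻¹) * F χ (k + 1)‖
      ≤ 2 * KS * (KS * Real.log z) ^ (k + 1) := by
    have e1 : ∑ χ ∈ S, χ ((a : ZMod q)⁻¹) * F χ (k + 1)
        = ((Nat.totient q : ℝ) : ℂ) * LL (cu z q a) (k + 1) s - LL (cu z 1 0) (k + 1) s := by
      rw [hLLo]
      simp only [hF1]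
      ring
    have e2 : ((Nat.totient q : ℝ) : ℂ) * LL (cu z q a) (k + 1) s - LL (cu z 1 0) (k + 1) s
        = ((Nat.totient q : ℝ) : ℂ) * (LL (cu z q a) (k + 1) s
            - ((Wz z / (Nat.totient q : ℝ) : ℝ) : ℂ) * LL (gz z) (k + 1) s)
          - (LL (cu z 1 0) (k + 1) s - ((Wz z : ℝ) : ℂ) * LL (gz z) (k + 1) s) := by
      push_cast
      field_simp
      ring
    rw [e1, e2]
    refine le_trans (norm_sub_le _ _) ?_
    rw [norm_mul, Complex.norm_real, Real.norm_of_nonneg hφ.le]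
    have e3 : (Nat.totient q : ℝ) * ‖LL (cu z q a) (k + 1) s
            - ((Wz z / (Nat.totient q : ℝ) : ℝ) : ℂ) * LL (gz z) (k + 1) s‖
        ≤ (Nat.totient q : ℝ) * (KS / (Nat.totient q : ℝ) * (KS * Real.log z) ^ (k + 1)) :=
      mul_le_mul_of_nonneg_left hsc1 hφ.le
    have e4 : (Nat.totient q : ℝ) * (KS / (Nat.totient q : ℝ) * (KS * Real.log z) ^ (k + 1))
        = KS * (KS * Real.log z) ^ (k + 1) := by field_simp
    rw [e4] at e3
    linarith
  have hnorm : ∀ χ : DirichletCharacter ℂ q, ‖χ ((a : ZMod q)⁻¹)‖ ≤ 1 := fun χ =>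
    χ.norm_le_one _
  have hdev : ‖∑ χ ∈ S, χ ((a : ZMod q)⁻¹) * (Pf χ k - ((k : ℂ) + 1) * F χ (k + 1))‖
      ≤ ((k : ℝ) + 1) ^ 3 * (K ^ 2 / c) * ((1 + K / c) * (K * Real.log z)) ^ (k + 1) := by
    refine le_trans (norm_sum_le _ _) (le_trans (Finset.sum_le_sum (fun χ _ => ?_)) hAL)
    rw [norm_mul]
    exact mul_le_of_le_one_left (norm_nonneg _) (hnorm χ)
  have htot : ‖∑ χ ∈ S, χ ((a : ZMod q)⁻¹) * Pf χ k‖
      ≤ ((8 * (K ^ 2 / c) * ((1 + K / c) * K) + 4 * KS ^ 2) * Real.log z) ^ (k + 1) := by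
    have e1 : ∑ χ ∈ S, χ ((a : ZMod q)⁻¹) * Pf χ k
        = ∑ χ ∈ S, χ ((a : ZMod q)⁻¹) * (Pf χ k - ((k : ℂ) + 1) * F χ (k + 1))
          + ((k : ℂ) + 1) * ∑ χ ∈ S, χ ((a : ZMod q)⁻¹) * F χ (k + 1) := by
      rw [Finset.mul_sum, ← Finset.sum_add_distrib]
      exact Finset.sum_congr rfl (fun χ _ => by ring)
    rw [e1]
    refine le_trans (norm_add_le _ _) (le_trans ?_ (num K c KS (Real.log z) k hK hc hc1 hKS hl))
    apply add_le_add hdev
    rw [norm_mul]
    have e2 : ‖((k : ℂ) + 1)‖ = (k : ℝ) + 1 := by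
      have : ((k : ℂ) + 1) = (((k : ℝ) + 1 : ℝ) : ℂ) := by push_cast; ring
      rw [this, Complex.norm_real, Real.norm_of_nonneg (by positivity)]
    rw [e2]
    exact mul_le_mul_of_nonneg_left hlin (by positivity)
  have hfin : PL (ci z q a) k s - ((1 / (Nat.totient q : ℝ) : ℝ) : ℂ) * PL (ci z 1 0) k s
      = ((1 / (Nat.totient q : ℝ) : ℝ) : ℂ) * ∑ χ ∈ S, χ ((a : ZMod q)⁻¹) * Pf χ k := by
    have e1 : PL (ci z q a) k s = ((1 / (Nat.totient q : ℝ) : ℝ) : ℂ) *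
        (((Nat.totient q : ℝ) : ℂ) * PL (ci z q a) k s) := by
      push_cast
      field_simp
    rw [e1, hPLo]
    ring
  rw [hfin, norm_mul, Complex.norm_real, Real.norm_of_nonneg (by positivity)]
  exact mul_le_mul_of_nonneg_left htot (by positivity)

end Pool.Agent.Helper42.CR
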